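import Mathlib

/-!
# MP_f8a98e_co: the inequalities for successive ratios of singleton double descent counts fail

For `n = 7` the numbers of permutations whose only double descent is at `2`, `3`, `4`, `5` are
`426`, `363`, `462`, `363`.  For the even index `i = 2 < ⌈7/2⌉ - 1` the proposed inequality
`dd({2};7)/dd({3};7) > dd({4};7)/dd({5};7)` reads `426/363 > 462/363` and is false.
-/

set_option autoImplicit false

namespace Pool.Agent.Results.MP_f8a98e_co.RatioFails

/-- The double descent set of a permutation `w` of `n` letters: the set of the indices `i`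
(one-based, `2 ≤ i ≤ n - 1`) with `w_(i-1) > w_i > w_(i+1)`.  The one-based entry `w_j` is
`w ⟨j - 1, _⟩`. -/
def DDes {n : ℕ} (w : Equiv.Perm (Fin n)) : Finset ℕ :=
  (Finset.range n).filter (fun i => ∃ (h1 : 2 ≤ i) (h2 : i < n),
    w ⟨i - 1, by omega⟩ < w ⟨i - 2, by omega⟩ ∧ w ⟨i, h2⟩ < w ⟨i - 1, by omega⟩)

/-- `dd I n` is the number of permutations of `n` letters with double descent set `I`. -/
def dd (I : Finset ℕ) (n : ℕ) : ℕ := Fintype.card {w : Equiv.Perm (Fin n) // DDes w = I}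

/-- a code for the double descent set of a permutation of seven letters -/
def cls (w : Equiv.Perm (Fin 7)) : ℕ :=
  let a := (w 0).val
  let b := (w 1).val
  let c := (w 2).val
  let d := (w 3).val
  let e := (w 4).val
  let f := (w 5).val
  let g := (w 6).val
  (if b < a ∧ c < b then 1 else 0) + (if c < b ∧ d < c then 2 else 0) +
    (if d < c ∧ e < d then 4 else 0) + (if e < d ∧ f < e then 8 else 0) +
    (if f < e ∧ g < f then 16 else 0)

/-- the weight used for counting four classes at once -/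
def wt (k : ℕ) : ℕ :=
  if k = 1 then 1 else if k = 2 then 10000 else if k = 4 then 100000000 else
    if k = 8 then 1000000000000 else 10000000000000000

set_option maxRecDepth 1000000 in
theorem total : ∑ w : Equiv.Perm (Fin 7), wt (cls w) =
    34260363046203630426 := by
  decide +kernel

theorem DDes_eq_iff (w : Equiv.Perm (Fin 7)) (I : Finset ℕ) (hI : I ⊆ {2, 3, 4, 5, 6}) :
    DDes w = I ↔ ((2 ∈ I ↔ (w 1 < w 0 ∧ w 2 < w 1)) ∧ (3 ∈ I ↔ (w 2 < w 1 ∧ w 3 < w 2)) ∧
      (4 ∈ I ↔ (w 3 < w 2 ∧ w 4 < w 3)) ∧ (5 ∈ I ↔ (w 4 < w 3 ∧ w 5 < w 4)) ∧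
      (6 ∈ I ↔ (w 5 < w 4 ∧ w 6 < w 5))) := by
  have m2 : 2 ∈ DDes w ↔ (w 1 < w 0 ∧ w 2 < w 1) := by
    simp only [DDes, Finset.mem_filter, Finset.mem_range]
    constructor
    · rintro ⟨_, _, _, h⟩; exact h
    · intro h; exact ⟨by norm_num, by norm_num, by norm_num, h⟩
  have m3 : 3 ∈ DDes w ↔ (w 2 < w 1 ∧ w 3 < w 2) := by
    simp only [DDes, Finset.mem_filter, Finset.mem_range]
    constructor
    · rintro ⟨_, _, _, h⟩; exact h
    · intro h; exact ⟨by norm_num, by norm_num, by norm_num, h⟩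
  have m4 : 4 ∈ DDes w ↔ (w 3 < w 2 ∧ w 4 < w 3) := by
    simp only [DDes, Finset.mem_filter, Finset.mem_range]
    constructor
    · rintro ⟨_, _, _, h⟩; exact h
    · intro h; exact ⟨by norm_num, by norm_num, by norm_num, h⟩
  have m5 : 5 ∈ DDes w ↔ (w 4 < w 3 ∧ w 5 < w 4) := by
    simp only [DDes, Finset.mem_filter, Finset.mem_range]
    constructor
    · rintro ⟨_, _, _, h⟩; exact h
    · intro h; exact ⟨by norm_num, by norm_num, by norm_num, h⟩
  have m6 : 6 ∈ DDes w ↔ (w 5 < w 4 ∧ w 6 < w 5) := by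
    simp only [DDes, Finset.mem_filter, Finset.mem_range]
    constructor
    · rintro ⟨_, _, _, h⟩; exact h
    · intro h; exact ⟨by norm_num, by norm_num, by norm_num, h⟩
  have hsub : DDes w ⊆ {2, 3, 4, 5, 6} := by
    intro i hi
    simp only [DDes, Finset.mem_filter, Finset.mem_range] at hi
    obtain ⟨h1, h2, _, _⟩ := hi
    simp only [Finset.mem_insert, Finset.mem_singleton]
    omega
  rw [← m2, ← m3, ← m4, ← m5, ← m6]
  constructor
  · rintro rfl
    exact ⟨Iff.rfl, Iff.rfl, Iff.rfl, Iff.rfl, Iff.rfl⟩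
  · rintro ⟨h2, h3, h4, h5, h6⟩
    ext i
    by_cases hi : i ∈ ({2, 3, 4, 5, 6} : Finset ℕ)
    · simp only [Finset.mem_insert, Finset.mem_singleton] at hi
      rcases hi with rfl | rfl | rfl | rfl | rfl
      · exact h2.symm
      · exact h3.symm
      · exact h4.symm
      · exact h5.symm
      · exact h6.symm
    · exact ⟨fun h => absurd (hsub h) hi, fun h => absurd (hI h) hi⟩

theorem iff2 (w : Equiv.Perm (Fin 7)) : DDes w = {2} ↔ cls w = 1 := by
  rw [DDes_eq_iff w {2} (by decide)]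
  simp only [cls, Finset.mem_singleton, Fin.lt_def]
  norm_num only
  split_ifs <;> simp_all

theorem iff3 (w : Equiv.Perm (Fin 7)) : DDes w = {3} ↔ cls w = 2 := by
  rw [DDes_eq_iff w {3} (by decide)]
  simp only [cls, Finset.mem_singleton, Fin.lt_def]
  norm_num only
  split_ifs <;> simp_all

theorem iff4 (w : Equiv.Perm (Fin 7)) : DDes w = {4} ↔ cls w = 4 := by
  rw [DDes_eq_iff w {4} (by decide)]
  simp only [cls, Finset.mem_singleton, Fin.lt_def]
  norm_num only
  split_ifs <;> simp_all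

theorem iff5 (w : Equiv.Perm (Fin 7)) : DDes w = {5} ↔ cls w = 8 := by
  rw [DDes_eq_iff w {5} (by decide)]
  simp only [cls, Finset.mem_singleton, Fin.lt_def]
  norm_num only
  split_ifs <;> simp_all


theorem wt_eq (k : ℕ) : wt k = (if k = 1 then 1 else 0) + 10000 * (if k = 2 then 1 else 0) +
    100000000 * (if k = 4 then 1 else 0) + 1000000000000 * (if k = 8 then 1 else 0) +
    10000000000000000 * (if k = 1 ∨ k = 2 ∨ k = 4 ∨ k = 8 then 0 else 1) := by
  unfold wt
  by_cases h1 : k = 1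
  · subst h1; norm_num
  by_cases h2 : k = 2
  · subst h2; norm_num
  by_cases h4 : k = 4
  · subst h4; norm_num
  by_cases h8 : k = 8
  · subst h8; norm_num
  simp [h1, h2, h4, h8]

/-- the number of permutations in a finite set with a given code -/
def cnt (s : Finset (Equiv.Perm (Fin 7))) (k : ℕ) : ℕ := (s.filter fun w => cls w = k).card

theorem sum_wt (s : Finset (Equiv.Perm (Fin 7))) : ∑ w ∈ s, wt (cls w) =
    cnt s 1 + 10000 * cnt s 2 + 100000000 * cnt s 4 + 1000000000000 * cnt s 8 +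
    10000000000000000 *
      ∑ w ∈ s, (if cls w = 1 ∨ cls w = 2 ∨ cls w = 4 ∨ cls w = 8 then 0 else 1) := by
  simp only [wt_eq, Finset.sum_add_distrib, ← Finset.mul_sum, Finset.card_filter, cnt]

theorem key (a b c d r : ℕ) (ha : a < 10000) (hb : b < 10000) (hc : c < 10000) (hd : d < 10000)
    (h : a + 10000 * b + 100000000 * c + 1000000000000 * d + 10000000000000000 * r =
      34260363046203630426) : a = 426 ∧ b = 363 ∧ c = 462 ∧ d = 363 := by
  omega

theorem counts (s : Finset (Equiv.Perm (Fin 7))) (hs : s.card < 10000)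
    (h : ∑ w ∈ s, wt (cls w) = 34260363046203630426) :
    cnt s 1 = 426 ∧ cnt s 2 = 363 ∧ cnt s 4 = 462 ∧ cnt s 8 = 363 := by
  have b : ∀ k, cnt s k < 10000 := fun k => lt_of_le_of_lt (Finset.card_filter_le _ _) hs
  rw [sum_wt] at h
  exact key _ _ _ _ _ (b 1) (b 2) (b 4) (b 8) h

theorem card_lt : (Finset.univ : Finset (Equiv.Perm (Fin 7))).card < 10000 := by
  rw [Finset.card_univ, Fintype.card_perm, Fintype.card_fin]
  norm_num [Nat.factorial]

theorem dd_eq (I : Finset ℕ) (k : ℕ) (h : ∀ w : Equiv.Perm (Fin 7), DDes w = I ↔ cls w = k) :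
    dd I 7 = cnt Finset.univ k := by
  unfold dd cnt
  rw [Fintype.card_subtype]
  congr 1
  ext w
  simp [h w]

theorem counts' : cnt Finset.univ 1 = 426 ∧ cnt Finset.univ 2 = 363 ∧ cnt Finset.univ 4 = 462 ∧
    cnt Finset.univ 8 = 363 := counts Finset.univ card_lt total

theorem dd2 : dd {2} 7 = 426 := (dd_eq _ _ iff2).trans counts'.1
theorem dd3 : dd {3} 7 = 363 := (dd_eq _ _ iff3).trans counts'.2.1
theorem dd4 : dd {4} 7 = 462 := (dd_eq _ _ iff4).trans counts'.2.2.1
theorem dd5 : dd {5} 7 = 363 := (dd_eq _ _ iff5).trans counts'.2.2.2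

/-- The inequalities of the question do not hold for all `n, i ≥ 1` with `i < ⌈n/2⌉ - 1`: they
fail for `n = 7`, `i = 2`, where the four numbers are `426`, `363`, `462`, `363`. -/
theorem result :
    (¬ ∀ n i : ℕ, 1 ≤ n → 1 ≤ i → (i : ℤ) < ⌈(n : ℚ) / 2⌉ - 1 →
      (Even i → (dd {i} n : ℚ) / dd {i + 1} n > (dd {i + 2} n : ℚ) / dd {i + 3} n) ∧
      (Odd i → (dd {i} n : ℚ) / dd {i + 1} n < (dd {i + 2} n : ℚ) / dd {i + 3} n)) ∧
    ((2 : ℤ) < ⌈((7 : ℕ) : ℚ) / 2⌉ - 1 ∧
      dd {2} 7 = 426 ∧ dd {3} 7 = 363 ∧ dd {4} 7 = 462 ∧ dd {5} 7 = 363) := by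
  have hc : ⌈((7 : ℕ) : ℚ) / 2⌉ = 4 := by
    rw [Int.ceil_eq_iff]
    norm_num
  refine ⟨fun H => ?_, by rw [hc]; norm_num, dd2, dd3, dd4, dd5⟩
  have h := (H 7 2 (by norm_num) (by norm_num) (by rw [hc]; norm_num)).1 (by decide)
  rw [dd2, dd3, dd4, dd5] at h
  norm_num at h

end Pool.Agent.Results.MP_f8a98e_co.RatioFails
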